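import Pool.Agent.W400.PC.PT
import Pool.Agent.W45.PC.PT1

set_option autoImplicit false

open MeasureTheory Set

/-!
`U`-bootstrap percolation on `Z^2`: locality, translations and chains of healthy sites.
-/

namespace Pool.Agent.Run7.h240.UB

open Pool.Agent.W783.PC (pm DepOn Inc)

noncomputable section

/-- Sites. -/
abbrev Z : Type := ℤ × ℤ

/-- One step of the process. -/
def step (U : Finset (Finset Z)) (A : Set Z) : Set Z := A ∪ {x | ∃ X ∈ U, ∀ y ∈ X, x + y ∈ A}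

/-- `A_t`. -/
def iter (U : Finset (Finset Z)) (A : Set Z) (t : ℕ) : Set Z := (step U)^[t] A

/-- The closure. -/
def clo (U : Finset (Finset Z)) (A : Set Z) : Set Z := ⋃ t : ℕ, iter U A t

/-- The initial set. -/
def ini (ω : Z → Bool) : Set Z := {x | ω x = true}

/-- Boxes. -/
def Bx (z : Z) (r : ℤ) : Set Z := {x | |x.1 - z.1| ≤ r ∧ |x.2 - z.2| ≤ r}

variable {U : Finset (Finset Z)}

lemma iter_zero (A : Set Z) : iter U A 0 = A := rfl

lemma iter_succ (A : Set Z) (t : ℕ) : iter U A (t + 1) = step U (iter U A t) :=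
  Function.iterate_succ_apply' _ _ _

lemma iter_mono {A : Set Z} {s t : ℕ} (h : s ≤ t) : iter U A s ⊆ iter U A t := by
  have hm : Monotone (iter U A) := monotone_nat_of_le_succ fun n => by
    rw [iter_succ]
    exact subset_union_left
  exact hm h

lemma clo_stable {A : Set Z} {x : Z} (hx : x ∉ clo U A) {X : Finset Z}
    (hX : X ∈ U) : ∃ y ∈ X, x + y ∉ clo U A := by
  classical
  by_contra hc
  push Not at hc
  have h1 : ∀ y ∈ X, ∃ t : ℕ, x + y ∈ iter U A t := fun y hy => mem_iUnion.1 (hc y hy)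
  choose! f hf using h1
  apply hx
  refine mem_iUnion.2 ⟨X.sup f + 1, ?_⟩
  rw [iter_succ]
  exact Or.inr ⟨X, hX, fun y hy => iter_mono (Finset.le_sup hy) (hf y hy)⟩

/-- `R` is a range of the family. -/
def Rng (U : Finset (Finset Z)) (R : ℤ) : Prop := 1 ≤ R ∧ ∀ X ∈ U, ∀ y ∈ X, |y.1| ≤ R ∧ |y.2| ≤ R

lemma exists_rng (U : Finset (Finset Z)) : ∃ R, Rng U R := by
  classical
  set S : Finset Z := U.biUnion id with hS
  obtain ⟨R, hR⟩ : ∃ R : ℕ, ∀ y ∈ S, y.1.natAbs + y.2.natAbs ≤ R :=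
    ⟨S.sup (fun y => y.1.natAbs + y.2.natAbs), fun y hy =>
      Finset.le_sup (f := fun y : Z => y.1.natAbs + y.2.natAbs) hy⟩
  refine ⟨R + 1, by omega, fun X hX y hy => ?_⟩
  have h1 := hR y (Finset.mem_biUnion.2 ⟨X, hX, hy⟩)
  constructor
  · rw [abs_le]; omega
  · rw [abs_le]; omega

lemma Bx_tri {z w x : Z} {a b : ℤ} (h1 : x ∈ Bx w a) (h2 : w ∈ Bx z b) : x ∈ Bx z (a + b) := by
  obtain ⟨p1, p2⟩ := h1
  obtain ⟨q1, q2⟩ := h2
  rw [abs_le] at p1 p2 q1 q2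
  constructor
  · rw [abs_le]; constructor <;> linarith [p1.1, p1.2, q1.1, q1.2]
  · rw [abs_le]; constructor <;> linarith [p2.1, p2.2, q2.1, q2.2]

lemma Bx_self {z : Z} {a : ℤ} (h : 0 ≤ a) : z ∈ Bx z a := by
  constructor <;> simpa using h

lemma Bx_mono {z : Z} {a b : ℤ} (h : a ≤ b) : Bx z a ⊆ Bx z b := fun _ hx =>
  ⟨hx.1.trans h, hx.2.trans h⟩

lemma Bx_fin (z : Z) (r : ℤ) : (Bx z r).Finite := by
  refine (((Finset.Icc (z.1 - r) (z.1 + r)) ×ˢ (Finset.Icc (z.2 - r) (z.2 + r))).finite_toSet).subset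
    fun x hx => ?_
  obtain ⟨h1, h2⟩ := hx
  rw [abs_le] at h1 h2
  simp only [Finset.coe_product, Finset.coe_Icc, mem_prod, mem_Icc]
  refine ⟨⟨?_, ?_⟩, ⟨?_, ?_⟩⟩ <;> linarith [h1.1, h1.2, h2.1, h2.2]

lemma iter_dep {R : ℤ} (hR : Rng U R) (t : ℕ) :
    ∀ x : Z, DepOn {ω : Z → Bool | x ∈ iter U (ini ω) t} (Bx x (t * R)) := by
  induction t with
  | zero =>
    intro x ω ω' h
    have := h x (Bx_self (by simp))
    show ω x = true ↔ ω' x = true
    rw [this]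
  | succ t ih =>
    intro x ω ω' h
    have hR0 : 0 ≤ R := le_trans zero_le_one hR.1
    have e : ((t + 1 : ℕ) : ℤ) * R = t * R + R := by push_cast; ring
    rw [e] at h
    show x ∈ iter U (ini ω) (t + 1) ↔ x ∈ iter U (ini ω') (t + 1)
    rw [iter_succ, iter_succ]
    have h1 : ∀ y : Z, |y.1| ≤ R → |y.2| ≤ R →
        (x + y ∈ iter U (ini ω) t ↔ x + y ∈ iter U (ini ω') t) := by
      intro y hy1 hy2
      refine ih (x + y) ω ω' fun c hc => h c (Bx_tri hc ?_)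
      constructor
      · simpa using hy1
      · simpa using hy2
    have h2 := h1 0 (by simpa using hR0) (by simpa using hR0)
    rw [add_zero] at h2
    constructor
    · rintro (hx | ⟨X, hX, hy⟩)
      · exact Or.inl (h2.1 hx)
      · exact Or.inr ⟨X, hX, fun y hyX => (h1 y (hR.2 X hX y hyX).1 (hR.2 X hX y hyX).2).1 (hy y hyX)⟩
    · rintro (hx | ⟨X, hX, hy⟩)
      · exact Or.inl (h2.2 hx)
      · exact Or.inr ⟨X, hX, fun y hyX => (h1 y (hR.2 X hX y hyX).1 (hR.2 X hX y hyX).2).2 (hy y hyX)⟩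

lemma iter_tr (w : Z) (ω : Z → Bool) (t : ℕ) : ∀ x : Z,
    x ∈ iter U (ini (fun c => ω (c + w))) t ↔ x + w ∈ iter U (ini ω) t := by
  induction t with
  | zero => intro x; exact Iff.rfl
  | succ t ih =>
    intro x
    rw [iter_succ, iter_succ]
    have h1 : ∀ y : Z, x + y ∈ iter U (ini (fun c => ω (c + w))) t ↔
        x + w + y ∈ iter U (ini ω) t := by
      intro y
      rw [ih, add_right_comm]
    constructor
    · rintro (hx | ⟨X, hX, hy⟩)
      · exact Or.inl ((ih x).1 hx)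
      · exact Or.inr ⟨X, hX, fun y hyX => (h1 y).1 (hy y hyX)⟩
    · rintro (hx | ⟨X, hX, hy⟩)
      · exact Or.inl ((ih x).2 hx)
      · exact Or.inr ⟨X, hX, fun y hyX => (h1 y).2 (hy y hyX)⟩

/-! ### Chains -/

/-- A step of a chain in `D`. -/
def Stp (R : ℤ) (D : Set Z) (x y : Z) : Prop := x ∈ D ∧ y ∈ D ∧ |x.1 - y.1| ≤ R ∧ |x.2 - y.2| ≤ R

/-- `x` is joined to `y` in `D`. -/
abbrev Ch (R : ℤ) (D : Set Z) (x y : Z) : Prop := Relation.ReflTransGen (Stp R D) x y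

/-- There is a crossing from the box of radius `L` to the outside of the box of radius `2L`. -/
def Cross (R : ℤ) (D : Set Z) (z : Z) (L : ℤ) : Prop :=
  ∃ x y, x ∈ D ∧ x ∈ Bx z L ∧ y ∉ Bx z (2 * L) ∧ Ch R (D ∩ Bx z (2 * L + R)) x y

lemma Stp_box {R : ℤ} {D : Set Z} {x y z : Z} {b : ℤ} (h : Stp R D x y) (hx : x ∈ Bx z b) :
    y ∈ Bx z (b + R) := by
  have h1 : y ∈ Bx x R := by
    refine ⟨?_, ?_⟩
    · rw [abs_sub_comm]; exact h.2.2.1
    · rw [abs_sub_comm]; exact h.2.2.2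
  have := Bx_tri h1 hx
  rwa [add_comm] at this

lemma trunc {R : ℤ} (hR : 0 ≤ R) {D : Set Z} {x y z : Z} {b : ℤ} (h : Ch R D x y) (hx : x ∈ Bx z b)
    (hy : y ∉ Bx z b) : ∃ y', y' ∉ Bx z b ∧ Ch R (D ∩ Bx z (b + R)) x y' := by
  have key : ∀ y, Ch R D x y → (∃ y', y' ∉ Bx z b ∧ Ch R (D ∩ Bx z (b + R)) x y') ∨
      (y ∈ Bx z b ∧ Ch R (D ∩ Bx z (b + R)) x y) := by
    intro y h
    induction h with
    | refl => exact Or.inr ⟨hx, Relation.ReflTransGen.refl⟩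
    | @tail c y _ hs ih =>
      rcases ih with ih | ⟨hc, ih⟩
      · exact Or.inl ih
      · have hyb : y ∈ Bx z (b + R) := Stp_box hs hc
        have hcb : c ∈ Bx z (b + R) := Bx_mono (by linarith) hc
        have hs' : Stp R (D ∩ Bx z (b + R)) c y := ⟨⟨hs.1, hcb⟩, ⟨hs.2.1, hyb⟩, hs.2.2⟩
        by_cases hyb' : y ∈ Bx z b
        · exact Or.inr ⟨hyb', ih.tail hs'⟩
        · exact Or.inl ⟨y, hyb', ih.tail hs'⟩
  rcases key y h with h1 | ⟨h1, _⟩
  · exact h1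
  · exact absurd h1 hy

lemma first_pt {R : ℤ} {D : Set Z} {x y z : Z} {b : ℤ} (h : Ch R D x y) (hx : x ∈ Bx z b)
    (hy : y ∉ Bx z b) : ∃ v, v ∈ D ∧ v ∉ Bx z b ∧ v ∈ Bx z (b + R) ∧ Ch R D v y := by
  revert hx
  refine Relation.ReflTransGen.head_induction_on h ?_ ?_
  · intro hx; exact absurd hx hy
  · intro a c hs hc ih ha
    by_cases hcb : c ∈ Bx z b
    · exact ih hcb
    · exact ⟨c, hs.2.1, hcb, Stp_box hs ha, hc⟩

/-- The index set. -/
def Ixs : Finset Z := Finset.Icc (-30) 30 ×ˢ Finset.Icc (-30) 30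

/-- The grid point. -/
def gp (z : Z) (L : ℤ) (a : Z) : Z := (z.1 + L * a.1, z.2 + L * a.2)

lemma sub_cross {R L : ℤ} (hR : 1 ≤ R) (hRL : R ≤ L) {D : Set Z} {x y z : Z} {b : ℤ}
    (hb : b ≤ 28 * L) (h : Ch R D x y) (hx : x ∈ Bx z b) (hy : y ∉ Bx z (b + 4 * L)) :
    ∃ a ∈ Ixs, Cross R D (gp z L a) L ∧ gp z L a ∈ Bx z (b + 2 * L) ∧ gp z L a ∉ Bx z (b - L) := by
  have hL : 0 < L := by linarith
  have hy' : y ∉ Bx z b := fun hc => hy (Bx_mono (by linarith) hc)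
  obtain ⟨v, hvD, hv1, hv2, hv3⟩ := first_pt h hx hy'
  obtain ⟨i, hi⟩ : ∃ i, i = (v.1 - z.1) / L := ⟨_, rfl⟩
  obtain ⟨j, hj⟩ : ∃ j, j = (v.2 - z.2) / L := ⟨_, rfl⟩
  have i1 : L * i ≤ v.1 - z.1 := by rw [hi]; exact Int.mul_ediv_self_le hL.ne'
  have i2 : v.1 - z.1 < L * i + L := by rw [hi]; exact Int.lt_mul_ediv_self_add hL
  have j1 : L * j ≤ v.2 - z.2 := by rw [hj]; exact Int.mul_ediv_self_le hL.ne'
  have j2 : v.2 - z.2 < L * j + L := by rw [hj]; exact Int.lt_mul_ediv_self_add hL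
  obtain ⟨v1, v2⟩ := hv2
  rw [abs_le] at v1 v2
  have hi1 : i ≤ 30 := by
    by_contra hc
    have : 31 ≤ i := by omega
    nlinarith
  have hi2 : -30 ≤ i := by
    by_contra hc
    have : i ≤ -31 := by omega
    nlinarith
  have hj1 : j ≤ 30 := by
    by_contra hc
    have : 31 ≤ j := by omega
    nlinarith
  have hj2 : -30 ≤ j := by
    by_contra hc
    have : j ≤ -31 := by omega
    nlinarith
  have hg : v ∈ Bx (gp z L (i, j)) L := by
    simp only [gp]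
    constructor
    · show |v.1 - (z.1 + L * i)| ≤ L
      rw [abs_le]; constructor <;> linarith
    · show |v.2 - (z.2 + L * j)| ≤ L
      rw [abs_le]; constructor <;> linarith
  have hg1 : gp z L (i, j) ∈ Bx v L := by
    obtain ⟨h1, h2⟩ := hg
    exact ⟨by rwa [abs_sub_comm], by rwa [abs_sub_comm]⟩
  have hg2 : gp z L (i, j) ∈ Bx z (b + 2 * L) := by
    have := Bx_tri hg1 (show v ∈ Bx z (b + R) from ⟨abs_le.2 v1, abs_le.2 v2⟩)
    exact Bx_mono (by linarith) this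
  have hg3 : gp z L (i, j) ∉ Bx z (b - L) := by
    intro hc
    have := Bx_tri hg hc
    rw [show L + (b - L) = b by ring] at this
    exact hv1 this
  have hyg : y ∉ Bx (gp z L (i, j)) (2 * L) := by
    intro hc
    have := Bx_tri hc hg2
    exact hy (Bx_mono (by linarith) this)
  refine ⟨(i, j), ?_, ?_, hg2, hg3⟩
  · simp only [Ixs, Finset.mem_product, Finset.mem_Icc]
    exact ⟨⟨hi2, hi1⟩, ⟨hj2, hj1⟩⟩
  · obtain ⟨y', hy1, hy2⟩ := trunc (by linarith : (0 : ℤ) ≤ R) hv3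
      (Bx_mono (by linarith : L ≤ 2 * L) hg) hyg
    exact ⟨v, y', hvD, hg, hy1, hy2⟩

attribute [irreducible] Ixs

/-- Two indices are far apart. -/
def Far (z : Z) (L : ℤ) (a b : Z) : Prop := Disjoint (Bx (gp z L a) (4 * L)) (Bx (gp z L b) (4 * L))

lemma Ch_mono {R : ℤ} {D D' : Set Z} (h : D ⊆ D') {x y : Z} (hc : Ch R D x y) : Ch R D' x y :=
  hc.lift id (fun _ _ hs => ⟨h hs.1, h hs.2.1, hs.2.2⟩)

lemma cross_two {R L : ℤ} (hR : 1 ≤ R) (hRL : R ≤ L) {D : Set Z} {z : Z} (h : Cross R D z (16 * L)) :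
    ∃ a ∈ Ixs, ∃ b ∈ Ixs, Far z L a b ∧ Cross R D (gp z L a) L ∧ Cross R D (gp z L b) L := by
  obtain ⟨x, y, _, hx, hy, hc⟩ := h
  have hL : 0 < L := by linarith
  have hc' : Ch R D x y := Ch_mono inter_subset_left hc
  obtain ⟨a, ha, ha1, ha2, ha3⟩ := sub_cross hR hRL (b := 16 * L) (by linarith) hc' hx
    (fun h => hy (Bx_mono (by linarith) h))
  obtain ⟨b, hb, hb1, hb2, hb3⟩ := sub_cross hR hRL (b := 28 * L) (by linarith) hc'
    (Bx_mono (by linarith) hx) (fun h => hy (Bx_mono (by linarith) h))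
  have hF : Far z L a b := ?_
  · exact ⟨a, ha, b, hb, hF, ha1, hb1⟩
  rw [Far, Set.disjoint_left]
  intro v hv1 hv2
  apply hb3
  have h1 : gp z L b ∈ Bx v (4 * L) := ⟨by rw [abs_sub_comm]; exact hv2.1,
    by rw [abs_sub_comm]; exact hv2.2⟩
  exact Bx_mono (by linarith) (Bx_tri h1 (Bx_tri hv1 ha2))

end

end Pool.Agent.Run7.h240.UB
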