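import Pool.Agent.Run7.h240.UB.A

set_option autoImplicit false

open MeasureTheory Set Filter

/-!
`U`-bootstrap percolation on `Z^2`: the finite-size criterion.
-/

namespace Pool.Agent.Run7.h240.UB

open Pool.Agent.W783.PC (pm DepOn Inc)

noncomputable section

variable {U : Finset (Finset Z)}

/-- The law of the configuration. -/
abbrev P (p : unitInterval) : Measure (Z → Bool) := pm (fun _ : Z => p)

/-- The healthy sites at time `n`. -/
def Dn (U : Finset (Finset Z)) (n : ℕ) (ω : Z → Bool) : Set Z := (iter U (ini ω) n)ᶜ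

/-- The crossing event. -/
def Cr (U : Finset (Finset Z)) (R : ℤ) (n : ℕ) (z : Z) (L : ℤ) : Set (Z → Bool) :=
  {ω | Cross R (Dn U n ω) z L}

lemma meas_of_dep {A : Set (Z → Bool)} {z : Z} {r : ℤ} (h : DepOn A (Bx z r)) : MeasurableSet A :=
  Pool.Agent.W45.PC.s_depmeas _ (Bx_fin z r).toFinset _ (by rw [Set.Finite.coe_toFinset]; exact h)

lemma cross_congr {R : ℤ} (hR : 0 ≤ R) {D D' : Set Z} {z : Z} {L : ℤ}
    (h : D ∩ Bx z (2 * L + R) = D' ∩ Bx z (2 * L + R)) (hc : Cross R D z L) : Cross R D' z L := by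
  obtain ⟨x, y, h1, h2, h3, h4⟩ := hc
  have hL : 0 ≤ L := (abs_nonneg _).trans h2.1
  have h5 : x ∈ D' ∩ Bx z (2 * L + R) := by
    rw [← h]
    exact ⟨h1, Bx_mono (by linarith) h2⟩
  refine ⟨x, y, h5.1, h2, h3, ?_⟩
  rw [← h]
  exact h4

lemma Cr_dep {R : ℤ} (hR : Rng U R) (n : ℕ) (z : Z) (L : ℤ) :
    DepOn (Cr U R n z L) (Bx z (n * R + (2 * L + R))) := by
  have key : ∀ ω ω' : Z → Bool, (∀ c ∈ Bx z (n * R + (2 * L + R)), ω c = ω' c) →
      ω ∈ Cr U R n z L → ω' ∈ Cr U R n z L := by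
    intro ω ω' h hω
    refine cross_congr (le_trans zero_le_one hR.1) ?_ hω
    ext v
    simp only [mem_inter_iff, Dn, mem_compl_iff]
    refine and_congr_left fun hv => not_congr ?_
    exact iter_dep hR n v ω ω' fun c hc => h c (Bx_tri hc hv)
  exact fun ω ω' h => ⟨key ω ω' h, key ω' ω fun c hc => (h c hc).symm⟩

lemma Cr_meas {R : ℤ} (hR : Rng U R) (n : ℕ) (z : Z) (L : ℤ) : MeasurableSet (Cr U R n z L) :=
  meas_of_dep (Cr_dep hR n z L)

lemma P_tr (p : unitInterval) (w : Z) {A : Set (Z → Bool)} (hA : MeasurableSet A) :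
    (P p).real {ω | (fun c => ω (c + w)) ∈ A} = (P p).real A := by
  have := Pool.Agent.W400.PC.s_equiv Z (fun _ => p) (Equiv.addRight w) A hA
  rw [measureReal_def, measureReal_def]
  congr 1
  exact this.symm

lemma Cr_tr {R : ℤ} (n : ℕ) (w : Z) (L : ℤ) :
    Cr U R n w L ⊆ {ω | (fun c => ω (c + w)) ∈ Cr U R n 0 L} := by
  rintro ω ⟨x, y, h1, h2, h3, h4⟩
  have hD : ∀ v : Z, v ∈ Dn U n ω → v - w ∈ Dn U n (fun c => ω (c + w)) := by
    intro v hv hc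
    apply hv
    have := (iter_tr w ω n (v - w)).1 hc
    rwa [sub_add_cancel] at this
  have hB : ∀ (v : Z) (r : ℤ), v ∈ Bx w r → v - w ∈ Bx 0 r := by
    intro v r hv
    exact ⟨by simpa using hv.1, by simpa using hv.2⟩
  refine ⟨x - w, y - w, hD x h1, hB x L h2, ?_, ?_⟩
  · intro hc
    apply h3
    exact ⟨by simpa using hc.1, by simpa using hc.2⟩
  · refine h4.lift (fun v => v - w) ?_
    rintro a b ⟨⟨ha1, ha2⟩, ⟨hb1, hb2⟩, hab1, hab2⟩
    refine ⟨⟨hD a ha1, hB a _ ha2⟩, ⟨hD b hb1, hB b _ hb2⟩, ?_, ?_⟩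
    · simpa using hab1
    · simpa using hab2

lemma Cr_le {R : ℤ} (hR : Rng U R) (p : unitInterval) (n : ℕ) (w : Z) (L : ℤ) :
    (P p).real (Cr U R n w L) ≤ (P p).real (Cr U R n 0 L) := by
  rw [← P_tr p w (Cr_meas hR n 0 L)]
  exact measureReal_mono (Cr_tr n w L) (measure_ne_top _ _)

lemma indep2 (p : unitInterval) {A B : Set (Z → Bool)} {S T : Set Z} (hA : DepOn A S)
    (hB : DepOn B T) (hd : Disjoint S T) (mA : MeasurableSet A) (mB : MeasurableSet B) :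
    (P p).real (A ∩ B) = (P p).real A * (P p).real B := by
  have := Pool.Agent.W45.PC.s_indep Z (fun _ => p) S T A B hA hB hd mA mB
  rw [measureReal_def, measureReal_def, measureReal_def, ← ENNReal.toReal_mul]
  congr 1

lemma card_Ixs : Ixs.card = 3721 := by
  unfold Ixs
  rw [Finset.card_product]
  simp

lemma rec_step {R : ℤ} (hR : Rng U R) (p : unitInterval) {n : ℕ} {L : ℤ} (h1 : R ≤ L)
    (h2 : n * R ≤ L) :
    (P p).real (Cr U R n 0 (16 * L)) ≤ 3721 ^ 2 * (P p).real (Cr U R n 0 L) ^ 2 := by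
  classical
  obtain ⟨q, hq⟩ : ∃ q, q = (P p).real (Cr U R n 0 L) := ⟨_, rfl⟩
  have hq0 : 0 ≤ q := by rw [hq]; exact measureReal_nonneg
  rw [← hq]
  have hsub : Cr U R n 0 (16 * L) ⊆ ⋃ a ∈ Ixs, ⋃ b ∈ Ixs,
      {ω | Far 0 L a b ∧ ω ∈ Cr U R n (gp 0 L a) L ∧ ω ∈ Cr U R n (gp 0 L b) L} := by
    intro ω hω
    obtain ⟨a, ha, b, hb, hF, h3, h4⟩ := cross_two hR.1 h1 hω
    simp only [mem_iUnion]
    exact ⟨a, ha, b, hb, hF, h3, h4⟩
  have hterm : ∀ a b : Z, (P p).real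
      {ω | Far 0 L a b ∧ ω ∈ Cr U R n (gp 0 L a) L ∧ ω ∈ Cr U R n (gp 0 L b) L} ≤ q ^ 2 := by
    intro a b
    by_cases hF : Far 0 L a b
    · have e : {ω | Far 0 L a b ∧ ω ∈ Cr U R n (gp 0 L a) L ∧ ω ∈ Cr U R n (gp 0 L b) L} =
          Cr U R n (gp 0 L a) L ∩ Cr U R n (gp 0 L b) L := by
        ext ω
        simp [hF]
      rw [e]
      have hd : ∀ z : Z, Bx z (n * R + (2 * L + R)) ⊆ Bx z (4 * L) := fun z =>
        Bx_mono (by linarith)
      have hd' : Disjoint (Bx (gp 0 L a) (n * R + (2 * L + R)))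
          (Bx (gp 0 L b) (n * R + (2 * L + R))) :=
        Set.disjoint_of_subset (hd _) (hd _) hF
      rw [indep2 p (Cr_dep hR n _ L) (Cr_dep hR n _ L) hd' (Cr_meas hR n _ L) (Cr_meas hR n _ L), sq]
      refine mul_le_mul ?_ ?_ measureReal_nonneg hq0
      · rw [hq]; exact Cr_le hR p n _ L
      · rw [hq]; exact Cr_le hR p n _ L
    · have e : {ω | Far 0 L a b ∧ ω ∈ Cr U R n (gp 0 L a) L ∧ ω ∈ Cr U R n (gp 0 L b) L} = ∅ := by
        ext ω
        simp [hF]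
      rw [e, measureReal_empty]
      positivity
  calc (P p).real (Cr U R n 0 (16 * L))
      ≤ (P p).real (⋃ a ∈ Ixs, ⋃ b ∈ Ixs,
        {ω | Far 0 L a b ∧ ω ∈ Cr U R n (gp 0 L a) L ∧ ω ∈ Cr U R n (gp 0 L b) L}) :=
        measureReal_mono hsub (measure_ne_top _ _)
    _ ≤ ∑ a ∈ Ixs, (P p).real (⋃ b ∈ Ixs,
        {ω | Far 0 L a b ∧ ω ∈ Cr U R n (gp 0 L a) L ∧ ω ∈ Cr U R n (gp 0 L b) L}) :=
        measureReal_biUnion_finset_le _ _
    _ ≤ ∑ a ∈ Ixs, ∑ b ∈ Ixs, (P p).real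
        {ω | Far 0 L a b ∧ ω ∈ Cr U R n (gp 0 L a) L ∧ ω ∈ Cr U R n (gp 0 L b) L} :=
        Finset.sum_le_sum fun a _ => measureReal_biUnion_finset_le _ _
    _ ≤ ∑ a ∈ Ixs, ∑ b ∈ Ixs, q ^ 2 :=
        Finset.sum_le_sum fun a _ => Finset.sum_le_sum fun b _ => hterm a b
    _ = 3721 ^ 2 * q ^ 2 := by
        simp only [Finset.sum_const, card_Ixs, nsmul_eq_mul]
        push_cast
        ring

/-- `P(T > n)`. -/
def th (U : Finset (Finset Z)) (n : ℕ) (p : unitInterval) : ℝ :=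
  (P p).real {ω | (0 : Z) ∉ iter U (ini ω) n}

lemma dep0 {R : ℤ} (hR : Rng U R) (n : ℕ) (x : Z) :
    DepOn {ω : Z → Bool | x ∉ iter U (ini ω) n} (Bx x (n * R)) := fun ω ω' h =>
  not_congr (iter_dep hR n x ω ω' h)

lemma meas0 (n : ℕ) (x : Z) : MeasurableSet {ω : Z → Bool | x ∉ iter U (ini ω) n} := by
  obtain ⟨R, hR⟩ := exists_rng U
  exact meas_of_dep (dep0 hR n x)

lemma meas1 (n : ℕ) (x : Z) : MeasurableSet {ω : Z → Bool | x ∈ iter U (ini ω) n} := by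
  obtain ⟨R, hR⟩ := exists_rng U
  exact meas_of_dep (iter_dep hR n x)

lemma th_tr (p : unitInterval) (n : ℕ) (x : Z) :
    (P p).real {ω | x ∉ iter U (ini ω) n} = th U n p := by
  rw [th, ← P_tr p x (meas0 n 0)]
  congr 1
  ext ω
  show x ∉ iter U (ini ω) n ↔ (0 : Z) ∉ iter U (ini (fun c => ω (c + x))) n
  rw [iter_tr x ω n 0, zero_add]

/-- Strips. -/
def Fr1 (L R : ℤ) : Finset ℤ := Finset.Icc (L + 1) (L + R) ∪ Finset.Icc (-(L + R)) (-(L + 1))

lemma card_Fr1 {L R : ℤ} (hR : 0 ≤ R) : ((Fr1 L R).card : ℝ) ≤ 2 * R := by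
  have h1 : ((Fr1 L R).card : ℤ) ≤ 2 * R := by
    have h := Finset.card_union_le (Finset.Icc (L + 1) (L + R)) (Finset.Icc (-(L + R)) (-(L + 1)))
    rw [Int.card_Icc, Int.card_Icc] at h
    unfold Fr1
    omega
  exact_mod_cast h1

/-- The frame. -/
def Frm (L R : ℤ) : Finset Z :=
  (Fr1 L R ×ˢ Finset.Icc (-(L + R)) (L + R)) ∪ (Finset.Icc (-(L + R)) (L + R) ×ˢ Fr1 L R)

lemma card_Frm {L R : ℤ} (hR : 0 ≤ R) (hL : 0 ≤ L) :
    ((Frm L R).card : ℝ) ≤ 4 * R * (2 * (L + R) + 1) := by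
  have h1 := card_Fr1 (L := L) hR
  have h2 : ((Finset.Icc (-(L + R)) (L + R)).card : ℝ) = 2 * (L + R) + 1 := by
    have : ((Finset.Icc (-(L + R)) (L + R)).card : ℤ) = 2 * (L + R) + 1 := by
      rw [Int.card_Icc]; omega
    exact_mod_cast this
  have h3 : ((Frm L R).card : ℝ) ≤ ((Fr1 L R).card : ℝ) * ((Finset.Icc (-(L + R)) (L + R)).card : ℝ) +
      ((Finset.Icc (-(L + R)) (L + R)).card : ℝ) * ((Fr1 L R).card : ℝ) := by
    have h := Finset.card_union_le (Fr1 L R ×ˢ Finset.Icc (-(L + R)) (L + R))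
      (Finset.Icc (-(L + R)) (L + R) ×ˢ Fr1 L R)
    rw [Finset.card_product, Finset.card_product] at h
    exact_mod_cast h
  rw [h2] at h3
  have hR' : (0 : ℝ) ≤ R := by exact_mod_cast hR
  have hL' : (0 : ℝ) ≤ L := by exact_mod_cast hL
  nlinarith

lemma mem_Frm {L R : ℤ} {v : Z} (h1 : v ∉ Bx 0 L) (h2 : v ∈ Bx 0 (L + R)) : v ∈ Frm L R := by
  obtain ⟨a1, a2⟩ := h2
  rw [abs_le] at a1 a2
  simp only [Prod.fst_zero, Prod.snd_zero, sub_zero] at a1 a2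
  have h3 : ¬ (|v.1| ≤ L ∧ |v.2| ≤ L) := by
    intro h
    apply h1
    exact ⟨by simpa using h.1, by simpa using h.2⟩
  simp only [Frm, Fr1, Finset.mem_union, Finset.mem_product, Finset.mem_Icc]
  rw [not_and_or, abs_le, abs_le] at h3
  omega

lemma base_le {R : ℤ} (hR : Rng U R) (p : unitInterval) {n : ℕ} (hn : 1 ≤ n) :
    (P p).real (Cr U R n 0 (n * R)) ≤ 20 * R ^ 2 * (n * th U n p) := by
  classical
  obtain ⟨L, hL⟩ : ∃ L : ℤ, L = n * R := ⟨_, rfl⟩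
  rw [← hL]
  have hR1 := hR.1
  have hnZ : (1 : ℤ) ≤ n := by exact_mod_cast hn
  have hL0 : 0 ≤ L := by rw [hL]; positivity
  have hsub : Cr U R n 0 L ⊆ ⋃ v ∈ Frm L R, {ω | v ∉ iter U (ini ω) n} := by
    rintro ω ⟨x, y, h1, h2, h3, h4⟩
    obtain ⟨v, hv1, hv2, hv3, _⟩ := first_pt h4 h2 (fun h => h3 (Bx_mono (by linarith) h))
    simp only [mem_iUnion]
    exact ⟨v, mem_Frm hv2 hv3, hv1.1⟩
  have hth : 0 ≤ th U n p := measureReal_nonneg
  have hc := card_Frm (L := L) (R := R) (by linarith) hL0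
  have hRR : (1 : ℝ) ≤ R := by exact_mod_cast hR1
  have hnR : (1 : ℝ) ≤ n := by exact_mod_cast hn
  have hLR : (L : ℝ) = n * R := by rw [hL]; push_cast; ring
  have hc2 : ((Frm L R).card : ℝ) ≤ 20 * R ^ 2 * n := by
    rw [hLR] at hc
    have h5 : (1 : ℝ) ≤ n * R := by nlinarith
    have h6 : (R : ℝ) ≤ n * R := by nlinarith
    have h7 : 2 * ((n : ℝ) * R + R) + 1 ≤ 5 * (n * R) := by linarith
    calc ((Frm L R).card : ℝ) ≤ 4 * R * (2 * (n * R + R) + 1) := hc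
      _ ≤ 4 * R * (5 * (n * R)) := mul_le_mul_of_nonneg_left h7 (by linarith)
      _ = 20 * R ^ 2 * n := by ring
  calc (P p).real (Cr U R n 0 L) ≤ (P p).real (⋃ v ∈ Frm L R, {ω | v ∉ iter U (ini ω) n}) :=
        measureReal_mono hsub (measure_ne_top _ _)
    _ ≤ ∑ v ∈ Frm L R, (P p).real {ω | v ∉ iter U (ini ω) n} := measureReal_biUnion_finset_le _ _
    _ = (Frm L R).card * th U n p := by
        rw [Finset.sum_congr rfl fun v _ => th_tr p n v, Finset.sum_const, nsmul_eq_mul]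
    _ ≤ 20 * R ^ 2 * n * th U n p := mul_le_mul_of_nonneg_right hc2 hth
    _ = 20 * R ^ 2 * (n * th U n p) := by ring

/-- No finite set can stay healthy by itself. -/
def NoFS (U : Finset (Finset Z)) : Prop :=
  ¬ ∃ F : Finset Z, F.Nonempty ∧ ∀ x ∈ F, ∀ X ∈ U, ∃ y ∈ X, x + y ∈ F

lemma far_reach (hno : NoFS U) {R : ℤ} (hR : Rng U R) {H : Set Z}
    (hH : ∀ x ∈ H, ∀ X ∈ U, ∃ y ∈ X, x + y ∈ H) {x : Z} (hx : x ∈ H) (N : ℤ) :
    ∃ y, y ∉ Bx 0 N ∧ Ch R H x y := by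
  classical
  by_contra hc
  push Not at hc
  have hC : {y | Ch R H x y} ⊆ Bx 0 N := by
    intro y hy
    by_contra h
    exact hc y h hy
  have hfin : {y | Ch R H x y}.Finite := (Bx_fin 0 N).subset hC
  have hmem : ∀ y, Ch R H x y → y ∈ H := by
    intro y hy
    rcases Relation.ReflTransGen.cases_tail hy with h | ⟨c, _, hs⟩
    · rw [h]; exact hx
    · exact hs.2.1
  apply hno
  refine ⟨hfin.toFinset, ⟨x, ?_⟩, ?_⟩
  · rw [Set.Finite.mem_toFinset]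
    exact Relation.ReflTransGen.refl
  · intro y hy X hX
    rw [Set.Finite.mem_toFinset] at hy
    obtain ⟨v, hv, hyv⟩ := hH y (hmem y hy) X hX
    refine ⟨v, hv, ?_⟩
    rw [Set.Finite.mem_toFinset]
    refine Relation.ReflTransGen.tail hy ⟨hmem y hy, hyv, ?_, ?_⟩
    · have := (hR.2 X hX v hv).1
      simpa using this
    · have := (hR.2 X hX v hv).2
      simpa using this

lemma sub_Cr (hno : NoFS U) {R : ℤ} (hR : Rng U R) (n : ℕ) {L : ℤ} (hL : 0 ≤ L) :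
    {ω : Z → Bool | (0 : Z) ∉ clo U (ini ω)} ⊆ Cr U R n 0 L := by
  intro ω hω
  have hsub : (clo U (ini ω))ᶜ ⊆ Dn U n ω := by
    intro v hv hc
    exact hv (mem_iUnion.2 ⟨n, hc⟩)
  obtain ⟨y, hy1, hy2⟩ := far_reach hno hR (H := (clo U (ini ω))ᶜ)
    (fun x hx X hX => clo_stable hx hX) (x := 0) hω (2 * L)
  have h0 : (0 : Z) ∈ Bx 0 (2 * L) := Bx_self (by linarith)
  obtain ⟨y', hy3, hy4⟩ := trunc (le_trans zero_le_one hR.1) (Ch_mono hsub hy2) h0 hy1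
  exact ⟨0, y', hsub hω, Bx_self hL, hy3, hy4⟩

/-- **Finite-size criterion.** -/
theorem fsc (hno : NoFS U) : ∃ ε : ℝ, 0 < ε ∧ ε ≤ 1 ∧ ∀ (p : unitInterval) (n : ℕ), 1 ≤ n →
    n * th U n p < ε → (P p).real {ω | (0 : Z) ∉ clo U (ini ω)} = 0 := by
  obtain ⟨R, hR⟩ := exists_rng U
  have hR1 : (1 : ℝ) ≤ R := by exact_mod_cast hR.1
  have hden : (1 : ℝ) ≤ 2 * 3721 ^ 2 * (20 * R ^ 2) := by nlinarith
  refine ⟨1 / (2 * 3721 ^ 2 * (20 * R ^ 2)), by positivity, ?_, fun p n hn h => ?_⟩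
  · rw [div_le_one (by linarith)]
    exact hden
  have hnZ : (1 : ℤ) ≤ n := by exact_mod_cast hn
  have hRn : R ≤ n * R := by nlinarith [hR.1]
  -- the sequence of crossing probabilities
  have hseq : ∀ k : ℕ, 3721 ^ 2 * (P p).real (Cr U R n 0 (16 ^ k * (n * R))) ≤ (1 / 2 : ℝ) ^ (k + 1) := by
    intro k
    induction k with
    | zero =>
      rw [pow_zero, one_mul]
      have h1 := base_le hR p hn
      have h2 : n * th U n p * (2 * 3721 ^ 2 * (20 * R ^ 2)) ≤ 1 := by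
        have := (lt_div_iff₀ (by linarith : (0 : ℝ) < 2 * 3721 ^ 2 * (20 * R ^ 2))).1 h
        linarith
      have : 3721 ^ 2 * (P p).real (Cr U R n 0 (n * R)) ≤ 3721 ^ 2 * (20 * R ^ 2 * (n * th U n p)) :=
        mul_le_mul_of_nonneg_left h1 (by norm_num)
      rw [zero_add, pow_one]
      linarith
    | succ k ih =>
      have hk : (1 : ℤ) ≤ 16 ^ k := one_le_pow₀ (by norm_num)
      have hnR0 : (0 : ℤ) ≤ n * R := by nlinarith [hR.1]
      have h1 : R ≤ 16 ^ k * (n * R) := by nlinarith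
      have h2 : n * R ≤ 16 ^ k * (n * R) := by nlinarith
      have h3 := rec_step hR p h1 h2
      have e : (16 : ℤ) ^ (k + 1) * (n * R) = 16 * (16 ^ k * (n * R)) := by ring
      rw [e]
      obtain ⟨q, hq⟩ : ∃ q, q = (P p).real (Cr U R n 0 (16 ^ k * (n * R))) := ⟨_, rfl⟩
      rw [← hq] at h3 ih
      have hq0 : 0 ≤ q := by rw [hq]; exact measureReal_nonneg
      have hhalf : (1 / 2 : ℝ) ^ (k + 1) ≤ 1 / 2 := by
        rw [pow_succ]
        have : (1 / 2 : ℝ) ^ k ≤ 1 := pow_le_one₀ (by norm_num) (by norm_num)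
        linarith
      calc 3721 ^ 2 * (P p).real (Cr U R n 0 (16 * (16 ^ k * (n * R))))
          ≤ 3721 ^ 2 * (3721 ^ 2 * q ^ 2) := mul_le_mul_of_nonneg_left h3 (by norm_num)
        _ = (3721 ^ 2 * q) * (3721 ^ 2 * q) := by ring
        _ ≤ (1 / 2 : ℝ) ^ (k + 1) * (1 / 2) :=
            mul_le_mul ih (ih.trans hhalf) (by positivity) (by positivity)
        _ = (1 / 2 : ℝ) ^ (k + 1 + 1) := by rw [pow_succ _ (k + 1)]
  have hle : ∀ k : ℕ, (P p).real {ω | (0 : Z) ∉ clo U (ini ω)} ≤ (1 / 2 : ℝ) ^ (k + 1) := by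
    intro k
    have hL : (0 : ℤ) ≤ 16 ^ k * (n * R) := by
      have : (0 : ℤ) ≤ n * R := by nlinarith [hR.1]
      positivity
    have h1 : (P p).real {ω | (0 : Z) ∉ clo U (ini ω)} ≤
        (P p).real (Cr U R n 0 (16 ^ k * (n * R))) := measureReal_mono (sub_Cr hno hR n hL) (measure_ne_top _ _)
    have h2 : 0 ≤ (P p).real (Cr U R n 0 (16 ^ k * (n * R))) := measureReal_nonneg
    linarith [hseq k]
  have hlim : Tendsto (fun k : ℕ => (1 / 2 : ℝ) ^ (k + 1)) atTop (nhds 0) :=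
    (tendsto_pow_atTop_nhds_zero_of_lt_one (by norm_num) (by norm_num)).comp (tendsto_add_atTop_nat 1)
  exact le_antisymm (ge_of_tendsto' hlim hle) measureReal_nonneg

end

end Pool.Agent.Run7.h240.UB
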