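import Pool.Agent.Run7.h240.UB.B

set_option autoImplicit false

open MeasureTheory Set Filter

/-!
`U`-bootstrap percolation on `Z^2`: tail of the occupation time.
-/

namespace Pool.Agent.Run7.h240.UB

open Pool.Agent.W783.PC (pm DepOn Inc)

noncomputable section

variable {U : Finset (Finset Z)}

/-- **Deterministic bound.** Without a crossing of the box of radius `L`, the origin is occupied
before time `n + (4 L + 1)^2`. -/
lemma det (hno : NoFS U) {R : ℤ} (hR : Rng U R) (n : ℕ) {L : ℕ} {ω : Z → Bool}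
    (hω : ω ∉ Cr U R n 0 L) : (0 : Z) ∈ iter U (ini ω) (n + (4 * L + 1) ^ 2) := by
  classical
  by_cases h0 : (0 : Z) ∈ Dn U n ω
  swap
  · exact iter_mono (Nat.le_add_right n _) (by simpa [Dn] using h0)
  have hR0 : (0 : ℤ) ≤ R := le_trans zero_le_one hR.1
  have hC : {y | Ch R (Dn U n ω) 0 y} ⊆ Bx 0 (2 * L) := by
    intro y hy
    by_contra hc
    apply hω
    obtain ⟨y', hy3, hy4⟩ := trunc hR0 hy (Bx_self (by positivity)) hc
    exact ⟨0, y', h0, Bx_self (by positivity), hy3, hy4⟩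
  have hfin : {y | Ch R (Dn U n ω) 0 y}.Finite := (Bx_fin 0 _).subset hC
  set C : Finset Z := hfin.toFinset with hCdef
  have memC : ∀ y, y ∈ C ↔ Ch R (Dn U n ω) 0 y := fun y => by rw [hCdef, Set.Finite.mem_toFinset]; rfl
  have hD : ∀ y ∈ C, y ∈ Dn U n ω := by
    intro y hy
    rcases Relation.ReflTransGen.cases_tail ((memC y).1 hy) with h | ⟨c, _, hs⟩
    · rw [h]; exact h0
    · exact hs.2.1
  have hcard : C.card ≤ (4 * L + 1) ^ 2 := by
    have h1 : C ⊆ Finset.Icc (-(2 * L : ℤ)) (2 * L) ×ˢ Finset.Icc (-(2 * L : ℤ)) (2 * L) := by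
      intro y hy
      obtain ⟨h1, h2⟩ := hC ((memC y).1 hy)
      rw [abs_le] at h1 h2
      simp only [Prod.fst_zero, Prod.snd_zero, sub_zero] at h1 h2
      simp only [Finset.mem_product, Finset.mem_Icc]
      exact ⟨h1, h2⟩
    have h2 := Finset.card_le_card h1
    rw [Finset.card_product, Int.card_Icc] at h2
    have e : (2 * (L : ℤ) + 1 - -(2 * (L : ℤ))).toNat = 4 * L + 1 := by omega
    rw [e] at h2
    calc C.card ≤ (4 * L + 1) * (4 * L + 1) := h2
      _ = (4 * L + 1) ^ 2 := by ring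
  -- the number of healthy sites of `C` decreases
  have key : ∀ t : ℕ, (C.filter fun y => y ∉ iter U (ini ω) (n + t)).card + t ≤ C.card ∨
      (C.filter fun y => y ∉ iter U (ini ω) (n + t)) = ∅ := by
    intro t
    induction t with
    | zero => exact Or.inl (by simpa using Finset.card_filter_le C _)
    | succ t ih =>
      have hsub : (C.filter fun y => y ∉ iter U (ini ω) (n + (t + 1))) ⊆
          (C.filter fun y => y ∉ iter U (ini ω) (n + t)) := by
        intro y hy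
        rw [Finset.mem_filter] at hy ⊢
        exact ⟨hy.1, fun hc => hy.2 (iter_mono (by omega) hc)⟩
      rcases ih with ih | ih
      swap
      · right
        rw [ih] at hsub
        exact Finset.subset_empty.1 hsub
      by_cases hemp : (C.filter fun y => y ∉ iter U (ini ω) (n + t)) = ∅
      · right
        rw [hemp] at hsub
        exact Finset.subset_empty.1 hsub
      left
      obtain ⟨x, hx, X, hX, hxX⟩ : ∃ x ∈ (C.filter fun y => y ∉ iter U (ini ω) (n + t)),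
          ∃ X ∈ U, ∀ y ∈ X, x + y ∉ (C.filter fun y => y ∉ iter U (ini ω) (n + t)) := by
        by_contra hc
        push Not at hc
        exact hno ⟨_, Finset.nonempty_iff_ne_empty.2 hemp, hc⟩
      have hx' := Finset.mem_filter.1 hx
      have hinf : x ∈ iter U (ini ω) (n + (t + 1)) := by
        rw [← add_assoc, iter_succ]
        refine Or.inr ⟨X, hX, fun y hy => ?_⟩
        by_contra hc
        apply hxX y hy
        rw [Finset.mem_filter]
        refine ⟨?_, hc⟩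
        rw [memC]
        have hyD : x + y ∈ Dn U n ω := fun h => hc (iter_mono (Nat.le_add_right n t) h)
        refine Relation.ReflTransGen.tail ((memC x).1 hx'.1) ⟨hD x hx'.1, hyD, ?_, ?_⟩
        · simpa using (hR.2 X hX y hy).1
        · simpa using (hR.2 X hX y hy).2
      have hss : (C.filter fun y => y ∉ iter U (ini ω) (n + (t + 1))) ⊂
          (C.filter fun y => y ∉ iter U (ini ω) (n + t)) := by
        refine Finset.ssubset_iff_subset_ne.2 ⟨hsub, fun e => ?_⟩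
        rw [← e] at hx
        exact (Finset.mem_filter.1 hx).2 hinf
      have := Finset.card_lt_card hss
      omega
  by_contra hc
  have h0C : (0 : Z) ∈ C := (memC 0).2 Relation.ReflTransGen.refl
  have hmem : (0 : Z) ∈ (C.filter fun y => y ∉ iter U (ini ω) (n + (4 * L + 1) ^ 2)) :=
    Finset.mem_filter.2 ⟨h0C, hc⟩
  rcases key ((4 * L + 1) ^ 2) with h | h
  · have : 0 < (C.filter fun y => y ∉ iter U (ini ω) (n + (4 * L + 1) ^ 2)).card :=
      Finset.card_pos.2 ⟨0, hmem⟩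
    omega
  · rw [h] at hmem
    exact absurd hmem (Finset.notMem_empty _)

/-- **Finite-size criterion**, quantitative form. -/
theorem fsc2 (hno : NoFS U) : ∃ ε : ℝ, 0 < ε ∧ ε ≤ 1 ∧ ∀ (p : unitInterval) (n : ℕ), 1 ≤ n →
    n * th U n p < ε → ∃ B : ℕ, 1 ≤ B ∧ ∀ k : ℕ, th U (B * 256 ^ k) p ≤ (1 / 2 : ℝ) ^ (2 ^ k) := by
  obtain ⟨R, hR⟩ := exists_rng U
  have hR1 : (1 : ℝ) ≤ R := by exact_mod_cast hR.1
  have hden : (1 : ℝ) ≤ 2 * 3721 ^ 2 * (20 * R ^ 2) := by nlinarith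
  refine ⟨1 / (2 * 3721 ^ 2 * (20 * R ^ 2)), by positivity, ?_, fun p n hn h => ?_⟩
  · rw [div_le_one (by linarith)]
    exact hden
  have hnZ : (1 : ℤ) ≤ n := by exact_mod_cast hn
  have hRn : R ≤ n * R := by nlinarith [hR.1]
  have hseq : ∀ k : ℕ, 3721 ^ 2 * (P p).real (Cr U R n 0 (16 ^ k * (n * R))) ≤ (1 / 2 : ℝ) ^ (2 ^ k) := by
    intro k
    induction k with
    | zero =>
      rw [pow_zero, one_mul]
      have h1 := base_le hR p hn
      have h2 : n * th U n p * (2 * 3721 ^ 2 * (20 * R ^ 2)) ≤ 1 := by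
        have := (lt_div_iff₀ (by linarith : (0 : ℝ) < 2 * 3721 ^ 2 * (20 * R ^ 2))).1 h
        linarith
      have : 3721 ^ 2 * (P p).real (Cr U R n 0 (n * R)) ≤ 3721 ^ 2 * (20 * R ^ 2 * (n * th U n p)) :=
        mul_le_mul_of_nonneg_left h1 (by norm_num)
      rw [pow_zero, pow_one]
      linarith
    | succ k ih =>
      have hk : (1 : ℤ) ≤ 16 ^ k := one_le_pow₀ (by norm_num)
      have hnR0 : (0 : ℤ) ≤ n * R := by nlinarith [hR.1]
      have h1 : R ≤ 16 ^ k * (n * R) := by nlinarith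
      have h2 : n * R ≤ 16 ^ k * (n * R) := by nlinarith
      have h3 := rec_step hR p h1 h2
      have e : (16 : ℤ) ^ (k + 1) * (n * R) = 16 * (16 ^ k * (n * R)) := by ring
      rw [e]
      obtain ⟨q, hq⟩ : ∃ q, q = (P p).real (Cr U R n 0 (16 ^ k * (n * R))) := ⟨_, rfl⟩
      rw [← hq] at h3 ih
      have hq0 : 0 ≤ q := by rw [hq]; exact measureReal_nonneg
      calc 3721 ^ 2 * (P p).real (Cr U R n 0 (16 * (16 ^ k * (n * R))))
          ≤ 3721 ^ 2 * (3721 ^ 2 * q ^ 2) := mul_le_mul_of_nonneg_left h3 (by norm_num)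
        _ = (3721 ^ 2 * q) * (3721 ^ 2 * q) := by ring
        _ ≤ (1 / 2 : ℝ) ^ (2 ^ k) * (1 / 2 : ℝ) ^ (2 ^ k) :=
            mul_le_mul ih ih (by positivity) (by positivity)
        _ = (1 / 2 : ℝ) ^ (2 ^ (k + 1)) := by rw [← pow_add]; congr 1; rw [pow_succ]; omega
  obtain ⟨r, hr⟩ : ∃ r : ℕ, (r : ℤ) = R := ⟨R.toNat, by have := hR.1; omega⟩
  have hr1 : 1 ≤ r := by have := hR.1; omega
  refine ⟨n + (5 * (n * r)) ^ 2, by omega, fun k => ?_⟩
  have h16 : 1 ≤ 16 ^ k := Nat.one_le_pow _ _ (by norm_num)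
  have hnr : 1 ≤ n * r := Nat.mul_pos hn hr1
  have hle : n + (4 * (16 ^ k * (n * r)) + 1) ^ 2 ≤ (n + (5 * (n * r)) ^ 2) * 256 ^ k := by
    have e1 : (256 : ℕ) ^ k = 16 ^ k * 16 ^ k := by rw [← mul_pow]; norm_num
    have e2 : 4 * (16 ^ k * (n * r)) + 1 ≤ 16 ^ k * (5 * (n * r)) := by nlinarith
    calc n + (4 * (16 ^ k * (n * r)) + 1) ^ 2 ≤ n + (16 ^ k * (5 * (n * r))) ^ 2 :=
          Nat.add_le_add_left (Nat.pow_le_pow_left e2 2) n
      _ ≤ n * 256 ^ k + (16 ^ k * (5 * (n * r))) ^ 2 :=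
          Nat.add_le_add_right (Nat.le_mul_of_pos_right n (by positivity)) _
      _ = (n + (5 * (n * r)) ^ 2) * 256 ^ k := by rw [e1]; ring
  have hsub : {ω : Z → Bool | (0 : Z) ∉ iter U (ini ω) ((n + (5 * (n * r)) ^ 2) * 256 ^ k)} ⊆
      Cr U R n 0 (16 ^ k * (n * R)) := by
    intro ω hω
    by_contra hc
    apply hω
    refine iter_mono hle (det hno hR n ?_)
    have e : ((16 ^ k * (n * r) : ℕ) : ℤ) = 16 ^ k * (n * R) := by push_cast; rw [hr]
    rw [e]
    exact hc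
  have h1 : th U ((n + (5 * (n * r)) ^ 2) * 256 ^ k) p ≤
      (P p).real (Cr U R n 0 (16 ^ k * (n * R))) := measureReal_mono hsub (measure_ne_top _ _)
  have h2 : 0 ≤ (P p).real (Cr U R n 0 (16 ^ k * (n * R))) := measureReal_nonneg
  linarith [hseq k]

lemma th_anti {m n : ℕ} (h : m ≤ n) (p : unitInterval) : th U n p ≤ th U m p := by
  refine measureReal_mono (fun ω hω => ?_) (measure_ne_top _ _)
  exact fun hc => hω (iter_mono h hc)

lemma th_nonneg (n : ℕ) (p : unitInterval) : 0 ≤ th U n p := measureReal_nonneg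

lemma th_le_one (n : ℕ) (p : unitInterval) : th U n p ≤ 1 := measureReal_le_one

/-- Stretched-exponential tail. -/
lemma tail_of (p : unitInterval) {B : ℕ} (hB : 1 ≤ B)
    (h : ∀ k : ℕ, th U (B * 256 ^ k) p ≤ (1 / 2 : ℝ) ^ (2 ^ k)) :
    ∃ C : ℝ, 0 < C ∧ ∀ m : ℕ, th U m p ≤ C * Real.exp (-((m : ℝ) ^ (1 / 8 : ℝ) / C)) := by
  have hBR : (1 : ℝ) ≤ B := by exact_mod_cast hB
  have hl2 : 0 < Real.log 2 := Real.log_pos (by norm_num)
  obtain ⟨D, hD⟩ : ∃ D : ℝ, D = 2 * (B : ℝ) ^ (1 / 8 : ℝ) / Real.log 2 := ⟨_, rfl⟩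
  have hB8 : 1 ≤ (B : ℝ) ^ (1 / 8 : ℝ) := Real.one_le_rpow hBR (by norm_num)
  have hD0 : 0 < D := by rw [hD]; positivity
  obtain ⟨C, hC⟩ : ∃ C : ℝ, C = D + 3 := ⟨_, rfl⟩
  have hC0 : 0 < C := by linarith
  refine ⟨C, hC0, fun m => ?_⟩
  have hm8 : 0 ≤ (m : ℝ) ^ (1 / 8 : ℝ) := by positivity
  have hexp : Real.exp (-((m : ℝ) ^ (1 / 8 : ℝ) / D)) ≤ Real.exp (-((m : ℝ) ^ (1 / 8 : ℝ) / C)) := by
    apply Real.exp_le_exp.2
    apply neg_le_neg
    exact div_le_div_of_nonneg_left hm8 hD0 (by linarith)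
  by_cases hm : m < B
  · -- small times
    have h1 : (m : ℝ) ^ (1 / 8 : ℝ) / D ≤ 1 := by
      rw [div_le_one hD0, hD, le_div_iff₀ hl2]
      have h2 : (m : ℝ) ^ (1 / 8 : ℝ) ≤ (B : ℝ) ^ (1 / 8 : ℝ) :=
        Real.rpow_le_rpow (by positivity) (by exact_mod_cast hm.le) (by norm_num)
      have h3 : Real.log 2 ≤ 1 := by
        have := Real.log_two_lt_d9
        linarith
      nlinarith
    have h4 : Real.exp (-1) ≤ Real.exp (-((m : ℝ) ^ (1 / 8 : ℝ) / C)) :=
      le_trans (Real.exp_le_exp.2 (by linarith)) hexp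
    have h5 : (1 : ℝ) / 3 ≤ Real.exp (-1) := by
      have h6 : Real.exp 1 < 3 := by
        have := Real.exp_one_lt_d9
        linarith
      have h7 : Real.exp (-1) = 1 / Real.exp 1 := by rw [Real.exp_neg, one_div]
      rw [h7]
      exact one_div_le_one_div_of_le (Real.exp_pos 1) h6.le
    calc th U m p ≤ 1 := th_le_one m p
      _ ≤ 3 * Real.exp (-((m : ℝ) ^ (1 / 8 : ℝ) / C)) := by linarith
      _ ≤ C * Real.exp (-((m : ℝ) ^ (1 / 8 : ℝ) / C)) :=
          mul_le_mul_of_nonneg_right (by linarith) (Real.exp_pos _).le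
  · have hm' : B ≤ m := not_lt.1 hm
    obtain ⟨k, hk1, hk2⟩ : ∃ k : ℕ, B * 256 ^ k ≤ m ∧ m < B * 256 ^ (k + 1) := by
      have hex : ∃ j : ℕ, m < B * 256 ^ j := by
        obtain ⟨j, hj⟩ := pow_unbounded_of_one_lt m (by norm_num : 1 < 256)
        exact ⟨j, lt_of_lt_of_le hj (Nat.le_mul_of_pos_left _ hB)⟩
      classical
      obtain ⟨j, hj⟩ : ∃ j, j = Nat.find hex := ⟨_, rfl⟩
      have hj1 : m < B * 256 ^ j := by rw [hj]; exact Nat.find_spec hex
      have hj0 : j ≠ 0 := by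
        intro h0
        rw [h0] at hj1
        simp at hj1
        omega
      obtain ⟨k, rfl⟩ := Nat.exists_eq_succ_of_ne_zero hj0
      refine ⟨k, ?_, hj1⟩
      have := Nat.find_min hex (m := k) (by omega)
      exact not_lt.1 this
    have h1 : th U m p ≤ (1 / 2 : ℝ) ^ (2 ^ k) := (th_anti hk1 p).trans (h k)
    have h2 : (m : ℝ) ^ (1 / 8 : ℝ) ≤ (B : ℝ) ^ (1 / 8 : ℝ) * (2 * 2 ^ k) := by
      have h3 : (m : ℝ) ≤ B * (2 * 2 ^ k) ^ 8 := by
        have h4 : (m : ℝ) ≤ B * 256 ^ (k + 1) := by exact_mod_cast hk2.le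
        have e : ((2 : ℝ) * 2 ^ k) ^ 8 = 256 ^ (k + 1) := by
          rw [show (2 : ℝ) * 2 ^ k = 2 ^ (k + 1) by ring, ← pow_mul, mul_comm, pow_mul]
          norm_num
        rw [e]
        exact h4
      calc (m : ℝ) ^ (1 / 8 : ℝ) ≤ (B * (2 * 2 ^ k) ^ 8) ^ (1 / 8 : ℝ) :=
            Real.rpow_le_rpow (by positivity) h3 (by norm_num)
        _ = (B : ℝ) ^ (1 / 8 : ℝ) * (((2 : ℝ) * 2 ^ k) ^ 8) ^ (1 / 8 : ℝ) :=
            Real.mul_rpow (by positivity) (by positivity)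
        _ = (B : ℝ) ^ (1 / 8 : ℝ) * (2 * 2 ^ k) := by
            congr 1
            rw [← Real.rpow_natCast, ← Real.rpow_mul (by positivity)]
            norm_num
    have h3 : (m : ℝ) ^ (1 / 8 : ℝ) / D ≤ Real.log 2 * 2 ^ k := by
      rw [div_le_iff₀ hD0, hD]
      have e : Real.log 2 * 2 ^ k * (2 * (B : ℝ) ^ (1 / 8 : ℝ) / Real.log 2) =
          (B : ℝ) ^ (1 / 8 : ℝ) * (2 * 2 ^ k) := by
        field_simp
      rw [e]
      exact h2
    have h4 : (1 / 2 : ℝ) ^ (2 ^ k) = Real.exp (-(Real.log 2 * 2 ^ k)) := by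
      have : (1 / 2 : ℝ) = Real.exp (-Real.log 2) := by
        rw [Real.exp_neg, Real.exp_log (by norm_num), one_div]
      rw [this, ← Real.exp_nat_mul]
      congr 1
      push_cast
      ring
    calc th U m p ≤ (1 / 2 : ℝ) ^ (2 ^ k) := h1
      _ = Real.exp (-(Real.log 2 * 2 ^ k)) := h4
      _ ≤ Real.exp (-((m : ℝ) ^ (1 / 8 : ℝ) / D)) := Real.exp_le_exp.2 (neg_le_neg h3)
      _ ≤ Real.exp (-((m : ℝ) ^ (1 / 8 : ℝ) / C)) := hexp
      _ ≤ C * Real.exp (-((m : ℝ) ^ (1 / 8 : ℝ) / C)) := by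
          have := Real.exp_pos (-((m : ℝ) ^ (1 / 8 : ℝ) / C))
          nlinarith

end

end Pool.Agent.Run7.h240.UB
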