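import Pool.Agent.Run7.h240.UB.C

set_option autoImplicit false

open MeasureTheory Set Filter

/-!
`U`-bootstrap percolation on `Z^2`: critical probability and mean occupation time.
-/

namespace Pool.Agent.Run7.h240.UB

open Pool.Agent.W783.PC (pm DepOn Inc bern)

noncomputable section

variable {U : Finset (Finset Z)}

/-- The occupation time of the origin. -/
def Tm (U : Finset (Finset Z)) (ω : Z → Bool) : ENNReal :=
  ⨅ (t : ℕ) (_ : (0 : Z) ∈ iter U (ini ω) t), (t : ENNReal)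

/-- The mean occupation time. -/
def ET (U : Finset (Finset Z)) (p : unitInterval) : ENNReal := ∫⁻ ω, Tm U ω ∂(P p)

/-- The critical probability. -/
def pc (U : Finset (Finset Z)) : unitInterval :=
  sInf {p | P p {ω | clo U (ini ω) = univ} = 1}

lemma lt_Tm (n : ℕ) (ω : Z → Bool) : (n : ENNReal) < Tm U ω ↔ (0 : Z) ∉ iter U (ini ω) n := by
  constructor
  · intro h hc
    have : Tm U ω ≤ (n : ENNReal) := iInf₂_le n hc
    exact absurd h (not_lt.2 this)
  · intro h
    have h1 : ((n + 1 : ℕ) : ENNReal) ≤ Tm U ω := by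
      refine le_iInf₂ fun t ht => ?_
      have h2 : n + 1 ≤ t := by
        by_contra hc
        exact h (iter_mono (by omega) ht)
      exact_mod_cast h2
    refine lt_of_lt_of_le ?_ h1
    exact_mod_cast Nat.lt_succ_self n

lemma clo_compl (x : Z) : {ω : Z → Bool | x ∉ clo U (ini ω)} = ⋂ t : ℕ, {ω | x ∉ iter U (ini ω) t} := by
  ext ω
  simp [clo]

lemma meas_clo (x : Z) : MeasurableSet {ω : Z → Bool | x ∉ clo U (ini ω)} := by
  rw [clo_compl]
  exact MeasurableSet.iInter fun t => meas0 t x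

lemma clo_tr (w : Z) (ω : Z → Bool) (x : Z) :
    x ∈ clo U (ini (fun c => ω (c + w))) ↔ x + w ∈ clo U (ini ω) := by
  simp only [clo, mem_iUnion]
  exact exists_congr fun t => iter_tr w ω t x

lemma perc_compl : {ω : Z → Bool | clo U (ini ω) = univ}ᶜ = ⋃ x : Z, {ω | x ∉ clo U (ini ω)} := by
  ext ω
  show ¬ (clo U (ini ω) = univ) ↔ _
  rw [Set.eq_univ_iff_forall, mem_iUnion]
  push Not
  exact Iff.rfl

lemma meas_perc : MeasurableSet {ω : Z → Bool | clo U (ini ω) = univ} := by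
  rw [← MeasurableSet.compl_iff, perc_compl]
  exact MeasurableSet.iUnion fun x => meas_clo x

lemma perc_of_zero (p : unitInterval) (h : (P p).real {ω : Z → Bool | (0 : Z) ∉ clo U (ini ω)} = 0) :
    P p {ω | clo U (ini ω) = univ} = 1 := by
  rw [← prob_compl_eq_zero_iff meas_perc, perc_compl, measure_iUnion_null_iff]
  intro x
  have h1 : (P p).real {ω : Z → Bool | x ∉ clo U (ini ω)} = 0 := by
    rw [← h, ← P_tr p x (meas_clo 0)]
    congr 1
    ext ω
    show x ∉ clo U (ini ω) ↔ (0 : Z) ∉ clo U (ini (fun c => ω (c + x)))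
    rw [clo_tr x ω 0, zero_add]
  rwa [measureReal_eq_zero_iff (measure_ne_top _ _)] at h1

lemma perc_of_tail (p : unitInterval) {B : ℕ}
    (h : ∀ k : ℕ, th U (B * 256 ^ k) p ≤ (1 / 2 : ℝ) ^ (2 ^ k)) :
    P p {ω | clo U (ini ω) = univ} = 1 := by
  apply perc_of_zero
  have hle : ∀ k : ℕ, (P p).real {ω : Z → Bool | (0 : Z) ∉ clo U (ini ω)} ≤ (1 / 2 : ℝ) ^ k := by
    intro k
    have h1 : (P p).real {ω : Z → Bool | (0 : Z) ∉ clo U (ini ω)} ≤ th U (B * 256 ^ k) p :=
      measureReal_mono (fun ω hω hc => hω (mem_iUnion.2 ⟨_, hc⟩)) (measure_ne_top _ _)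
    have h2 : (1 / 2 : ℝ) ^ (2 ^ k) ≤ (1 / 2 : ℝ) ^ k :=
      pow_le_pow_of_le_one (by norm_num) (by norm_num) Nat.lt_two_pow_self.le
    linarith [h k]
  exact le_antisymm (ge_of_tendsto'
    (tendsto_pow_atTop_nhds_zero_of_lt_one (by norm_num) (by norm_num)) hle) measureReal_nonneg

/-! ### The parameter -/

lemma iter_inc (t : ℕ) : ∀ x : Z, Inc {ω : Z → Bool | x ∈ iter U (ini ω) t} := by
  induction t with
  | zero => intro x ω ω' h hx; exact h x hx
  | succ t ih =>
    intro x ω ω' h hx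
    have hx' : x ∈ iter U (ini ω) (t + 1) := hx
    show x ∈ iter U (ini ω') (t + 1)
    rw [iter_succ] at hx' ⊢
    rcases hx' with hx' | ⟨X, hX, hy⟩
    · exact Or.inl (ih x ω ω' h hx')
    · exact Or.inr ⟨X, hX, fun y hyX => ih (x + y) ω ω' h (hy y hyX)⟩

lemma th_compl (n : ℕ) (p : unitInterval) :
    th U n p = 1 - (P p).real {ω | (0 : Z) ∈ iter U (ini ω) n} := by
  have h := probReal_compl_eq_one_sub (μ := P p) (meas1 (U := U) n 0)
  rw [← h]
  rfl

lemma th_mono_p (n : ℕ) {p p' : unitInterval} (h : p ≤ p') : th U n p' ≤ th U n p := by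
  rw [th_compl, th_compl]
  have h1 := Pool.Agent.W400.PC.s_mono Z (fun _ => p) (fun _ => p')
    {ω | (0 : Z) ∈ iter U (ini ω) n} (fun _ => h) (iter_inc n 0) (meas1 n 0)
  have h2 : (P p).real {ω | (0 : Z) ∈ iter U (ini ω) n} ≤
      (P p').real {ω | (0 : Z) ∈ iter U (ini ω) n} := by
    rw [measureReal_def, measureReal_def]
    exact ENNReal.toReal_mono (measure_ne_top _ _) h1
  linarith

lemma th_lip (n : ℕ) : ∃ K : ℝ, 0 < K ∧ ∀ p p' : unitInterval,
    |th U n p - th U n p'| ≤ K * |(p : ℝ) - p'| := by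
  obtain ⟨R, hR⟩ := exists_rng U
  refine ⟨(Bx_fin 0 (n * R)).toFinset.card + 1, by positivity, fun p p' => ?_⟩
  have h := Pool.Agent.W400.PC.s_tv Z (fun _ => p) (fun _ => p') (Bx_fin 0 (n * R)).toFinset
    {ω | (0 : Z) ∉ iter U (ini ω) n} (by rw [Set.Finite.coe_toFinset]; exact dep0 hR n 0)
  rw [Finset.sum_const, nsmul_eq_mul] at h
  refine h.trans ?_
  exact mul_le_mul_of_nonneg_right (by linarith) (abs_nonneg _)

lemma P_false (p : unitInterval) (F : Finset Z) :
    P p {ω | ∀ x ∈ F, ω x = false} = ENNReal.ofReal (1 - (p : ℝ)) ^ F.card := by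
  have h := Pool.Agent.W400.PC.pm_pi (fun _ : Z => p) F (fun _ => {false})
  rw [Finset.prod_const, Pool.Agent.W400.PC.bern_false] at h
  rw [← h]
  congr 1

lemma th_le (n : ℕ) (p : unitInterval) : th U n p ≤ 1 - p := by
  have h1 : (P p).real {ω : Z → Bool | ∀ x ∈ ({0} : Finset Z), ω x = false} = 1 - (p : ℝ) := by
    rw [measureReal_def, P_false, Finset.card_singleton, pow_one,
      ENNReal.toReal_ofReal (by linarith [p.2.2])]
  rw [← h1]
  refine measureReal_mono (fun ω hω => ?_) (measure_ne_top _ _)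
  intro x hx
  rw [Finset.mem_singleton.1 hx]
  by_contra hc
  apply hω
  refine iter_mono (Nat.zero_le n) ?_
  show ω 0 = true
  simpa using hc

lemma iter_empty (hne : ∀ X ∈ U, X.Nonempty) (t : ℕ) : iter U (∅ : Set Z) t = ∅ := by
  induction t with
  | zero => rfl
  | succ t ih =>
    rw [iter_succ, ih]
    ext x
    constructor
    · rintro (h | ⟨X, hX, h⟩)
      · exact h
      · obtain ⟨y, hy⟩ := hne X hX
        exact absurd (h y hy) (notMem_empty _)
    · intro h
      exact absurd h (notMem_empty _)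

lemma th_zero (hne : ∀ X ∈ U, X.Nonempty) (n : ℕ) : th U n 0 = 1 := by
  obtain ⟨R, hR⟩ := exists_rng U
  refine le_antisymm (th_le_one n 0) ?_
  have h1 : (P 0).real {ω : Z → Bool | ∀ x ∈ (Bx_fin 0 (n * R)).toFinset, ω x = false} = 1 := by
    rw [measureReal_def, P_false]
    simp
  rw [← h1]
  refine measureReal_mono (fun ω hω => ?_) (measure_ne_top _ _)
  have h2 := dep0 hR n 0 ω (fun _ => false) fun c hc =>
    hω c ((Set.Finite.mem_toFinset _).2 hc)
  refine h2.2 ?_
  show (0 : Z) ∉ iter U (ini fun _ => false) n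
  have e : ini (fun _ : Z => false) = ∅ := by
    ext x
    simp [ini]
  rw [e, iter_empty hne]
  exact notMem_empty _

/-- A finite set which stays healthy by itself. -/
lemma not_perc {F : Finset Z} (hF : F.Nonempty) (h : ∀ x ∈ F, ∀ X ∈ U, ∃ y ∈ X, x + y ∈ F)
    {p : unitInterval} (hp : p < 1) : P p {ω | clo U (ini ω) = univ} ≠ 1 := by
  intro hc
  rw [← prob_compl_eq_zero_iff meas_perc] at hc
  have hsub : {ω : Z → Bool | ∀ x ∈ F, ω x = false} ⊆ {ω | clo U (ini ω) = univ}ᶜ := by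
    intro ω hω hu
    have hu' : clo U (ini ω) = univ := hu
    have key : ∀ t : ℕ, ∀ x ∈ F, x ∉ iter U (ini ω) t := by
      intro t
      induction t with
      | zero =>
        intro x hx hxt
        have h1 : ω x = true := hxt
        rw [hω x hx] at h1
        exact absurd h1 (by decide)
      | succ t ih =>
        intro x hx hxt
        rw [iter_succ] at hxt
        rcases hxt with hxt | ⟨X, hX, hy⟩
        · exact ih x hx hxt
        · obtain ⟨y, hyX, hyF⟩ := h x hx X hX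
          exact ih (x + y) hyF (hy y hyX)
    obtain ⟨x, hx⟩ := hF
    have h2 : x ∈ clo U (ini ω) := by rw [hu']; exact mem_univ x
    obtain ⟨t, ht⟩ := mem_iUnion.1 h2
    exact key t x hx ht
  have h0 : P p {ω : Z → Bool | ∀ x ∈ F, ω x = false} = 0 := measure_mono_null hsub hc
  rw [P_false] at h0
  have hp' : (p : ℝ) < 1 := by exact_mod_cast hp
  have h3 := (pow_eq_zero_iff (Finset.card_pos.2 hF).ne').1 h0
  rw [ENNReal.ofReal_eq_zero] at h3
  linarith

lemma perc_one : P (1 : unitInterval) {ω | clo U (ini ω) = univ} = 1 := by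
  apply perc_of_zero
  refine le_antisymm ?_ measureReal_nonneg
  have h1 : (P 1).real {ω : Z → Bool | (0 : Z) ∉ clo U (ini ω)} ≤ th U 0 1 :=
    measureReal_mono (fun ω hω hc => hω (mem_iUnion.2 ⟨_, hc⟩)) (measure_ne_top _ _)
  have h2 := th_le (U := U) 0 1
  simp at h2
  linarith

/-! ### Mean occupation time -/

lemma ET_one : ET U 1 = 0 := by
  unfold ET
  rw [lintegral_eq_zero_of_ae_eq_zero]
  have h1 : P (1 : unitInterval) {ω : Z → Bool | ∀ x ∈ ({0} : Finset Z), ω x = false} = 0 := by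
    rw [P_false]
    simp
  have h2 : ∀ᵐ ω ∂(P (1 : unitInterval)), ¬ ∀ x ∈ ({0} : Finset Z), ω x = false := by
    rw [ae_iff]
    simpa using h1
  filter_upwards [h2] with ω hω
  have h3 : ω 0 = true := by
    by_contra hc
    apply hω
    intro x hx
    rw [Finset.mem_singleton.1 hx]
    simpa using hc
  have h4 : Tm U ω ≤ ((0 : ℕ) : ENNReal) := iInf₂_le 0 h3
  simpa using h4

lemma sum_le_Tm (N : ℕ) (ω : Z → Bool) :
    ∑ n ∈ Finset.range N, ({ω : Z → Bool | (0 : Z) ∉ iter U (ini ω) (n + 1)}.indicator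
      (fun _ => (1 : ENNReal)) ω) ≤ Tm U ω := by
  classical
  refine le_iInf₂ fun t ht => ?_
  have h1 : ∀ n ∈ Finset.range N, ({ω : Z → Bool | (0 : Z) ∉ iter U (ini ω) (n + 1)}.indicator
      (fun _ => (1 : ENNReal)) ω) ≤ if n < t then 1 else 0 := by
    intro n _
    by_cases hn : n < t
    · rw [if_pos hn]
      exact Set.indicator_le_self' (fun _ _ => zero_le) ω
    · rw [if_neg hn, Set.indicator_of_notMem]
      intro hc
      exact hc (iter_mono (by omega) ht)
  refine (Finset.sum_le_sum h1).trans ?_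
  rw [Finset.sum_ite, Finset.sum_const_zero, add_zero, Finset.sum_const, nsmul_eq_mul, mul_one]
  have h2 : ((Finset.range N).filter fun n => n < t).card ≤ t := by
    have h3 : ((Finset.range N).filter fun n => n < t) ⊆ Finset.range t := by
      intro n hn
      exact Finset.mem_range.2 (Finset.mem_filter.1 hn).2
    simpa using Finset.card_le_card h3
  exact_mod_cast h2

lemma ET_ge (p : unitInterval) (N : ℕ) :
    ENNReal.ofReal (∑ n ∈ Finset.range N, th U (n + 1) p) ≤ ET U p := by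
  have h1 : ∫⁻ ω, ∑ n ∈ Finset.range N, ({ω : Z → Bool | (0 : Z) ∉ iter U (ini ω) (n + 1)}.indicator
      (fun _ => (1 : ENNReal)) ω) ∂(P p) ≤ ET U p := lintegral_mono (sum_le_Tm N)
  rw [lintegral_finsetSum _ (fun n _ => measurable_const.indicator (meas0 (n + 1) 0))] at h1
  refine le_trans (le_of_eq ?_) h1
  rw [ENNReal.ofReal_sum_of_nonneg (fun n _ => th_nonneg (n + 1) p)]
  refine Finset.sum_congr rfl fun n _ => ?_
  rw [lintegral_indicator (meas0 (n + 1) 0), setLIntegral_const, one_mul, th,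
    ofReal_measureReal]

lemma ET_top {p : unitInterval} {ε : ℝ} (hε : 0 < ε) (h : ∀ n : ℕ, 1 ≤ n → ε ≤ n * th U n p) :
    ET U p = ⊤ := by
  by_contra hfin
  have h1 : ∀ N : ℕ, ε * ∑ i ∈ Finset.range N, (1 / ((i : ℝ) + 1)) ≤ (ET U p).toReal := by
    intro N
    have h2 := ET_ge (U := U) p N
    rw [ENNReal.ofReal_le_iff_le_toReal hfin] at h2
    refine le_trans ?_ h2
    rw [Finset.mul_sum]
    refine Finset.sum_le_sum fun n _ => ?_
    have h3 := h (n + 1) (by omega)
    push_cast at h3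
    rw [mul_one_div, div_le_iff₀ (by positivity)]
    linarith
  have h4 : Tendsto (fun N : ℕ => ε * ∑ i ∈ Finset.range N, (1 / ((i : ℝ) + 1))) atTop atTop :=
    Real.tendsto_sum_range_one_div_nat_succ_atTop.const_mul_atTop hε
  obtain ⟨N, hN⟩ := (h4.eventually_gt_atTop (ET U p).toReal).exists
  exact absurd (h1 N) (not_le.2 hN)

lemma Tm_le_tsum (ω : Z → Bool) :
    Tm U ω ≤ ∑' n : ℕ, ({ω : Z → Bool | (0 : Z) ∉ iter U (ini ω) n}.indicator
      (fun _ => (1 : ENNReal)) ω) := by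
  classical
  by_cases hex : ∃ t : ℕ, (0 : Z) ∈ iter U (ini ω) t
  · obtain ⟨t, ht⟩ : ∃ t, t = Nat.find hex := ⟨_, rfl⟩
    have h1 : (0 : Z) ∈ iter U (ini ω) t := by rw [ht]; exact Nat.find_spec hex
    have h2 : ∀ n ∈ Finset.range t, ({ω : Z → Bool | (0 : Z) ∉ iter U (ini ω) n}.indicator
        (fun _ => (1 : ENNReal)) ω) = 1 := by
      intro n hn
      rw [Set.indicator_of_mem]
      have h3 : n < Nat.find hex := by rw [← ht]; exact Finset.mem_range.1 hn
      exact Nat.find_min hex h3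
    calc Tm U ω ≤ (t : ENNReal) := iInf₂_le t h1
      _ = ∑ n ∈ Finset.range t, ({ω : Z → Bool | (0 : Z) ∉ iter U (ini ω) n}.indicator
        (fun _ => (1 : ENNReal)) ω) := by
          rw [Finset.sum_congr rfl h2]; simp
      _ ≤ _ := ENNReal.sum_le_tsum _
  · have h1 : ∀ n : ℕ, ({ω : Z → Bool | (0 : Z) ∉ iter U (ini ω) n}.indicator
        (fun _ => (1 : ENNReal)) ω) = 1 := by
      intro n
      rw [Set.indicator_of_mem]
      exact fun hc => hex ⟨n, hc⟩
    rw [tsum_congr h1, ENNReal.tsum_const_eq_top_of_ne_zero one_ne_zero]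
    exact le_top

lemma ET_lt (p : unitInterval) (h : Summable fun n => th U n p) : ET U p < ⊤ := by
  have h1 : ET U p ≤ ∑' n : ℕ, ENNReal.ofReal (th U n p) := by
    calc ET U p ≤ ∫⁻ ω, ∑' n : ℕ, ({ω : Z → Bool | (0 : Z) ∉ iter U (ini ω) n}.indicator
          (fun _ => (1 : ENNReal)) ω) ∂(P p) := lintegral_mono Tm_le_tsum
      _ = ∑' n : ℕ, ∫⁻ ω, ({ω : Z → Bool | (0 : Z) ∉ iter U (ini ω) n}.indicator
          (fun _ => (1 : ENNReal)) ω) ∂(P p) :=
          lintegral_tsum fun n => (measurable_const.indicator (meas0 n 0)).aemeasurable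
      _ = ∑' n : ℕ, ENNReal.ofReal (th U n p) := by
          refine tsum_congr fun n => ?_
          rw [lintegral_indicator (meas0 n 0), setLIntegral_const, one_mul, th, ofReal_measureReal]
  refine lt_of_le_of_lt h1 ?_
  rw [← ENNReal.ofReal_tsum_of_nonneg (fun n => th_nonneg n p) h]
  exact ENNReal.ofReal_lt_top

lemma summable_of_tail (p : unitInterval) {C : ℝ} (hC : 0 < C)
    (h : ∀ m : ℕ, th U m p ≤ C * Real.exp (-((m : ℝ) ^ (1 / 8 : ℝ) / C))) :
    Summable fun n => th U n p := by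
  rw [← summable_nat_add_iff 1]
  have hs : Summable fun n : ℕ => (C * (Nat.factorial 16 * C ^ 16)) * (1 / ((n + 1 : ℕ) : ℝ) ^ 2) :=
    ((summable_nat_add_iff 1).2 (Real.summable_one_div_nat_pow.2 (by norm_num : 1 < 2))).mul_left _
  refine Summable.of_nonneg_of_le (fun n => th_nonneg _ p) (fun n => ?_) hs
  refine (h (n + 1)).trans ?_
  rw [mul_assoc]
  refine mul_le_mul_of_nonneg_left ?_ hC.le
  obtain ⟨x, hx⟩ : ∃ x : ℝ, x = (((n + 1 : ℕ) : ℝ) ^ (1 / 8 : ℝ)) / C := ⟨_, rfl⟩
  have hn0 : (0 : ℝ) < ((n + 1 : ℕ) : ℝ) := by positivity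
  have hx0 : 0 < x := by rw [hx]; positivity
  rw [← hx]
  have h1 : x ^ 16 / (Nat.factorial 16 : ℝ) ≤ Real.exp x := Real.pow_div_factorial_le_exp x hx0.le 16
  have hf : (0 : ℝ) < (Nat.factorial 16 : ℝ) := by exact_mod_cast Nat.factorial_pos 16
  have h2 : x ^ 16 = ((n + 1 : ℕ) : ℝ) ^ 2 / C ^ 16 := by
    rw [hx, div_pow]
    congr 1
    rw [← Real.rpow_natCast, ← Real.rpow_mul hn0.le]
    norm_num
  have h3 : Real.exp (-x) ≤ (Nat.factorial 16 : ℝ) / x ^ 16 := by
    rw [Real.exp_neg, ← one_div, div_le_div_iff₀ (Real.exp_pos x) (by positivity), one_mul]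
    rw [div_le_iff₀ hf] at h1
    linarith
  rw [h2] at h3
  refine h3.trans (le_of_eq ?_)
  field_simp

end

end Pool.Agent.Run7.h240.UB
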