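import Pool.Agent.Run7.h240.UB.D

set_option autoImplicit false

open MeasureTheory Set Filter

/-!
`U`-bootstrap percolation on `Z^2`: the dichotomy for the occupation time.
-/

namespace Pool.Agent.Run7.h240.UB

open Pool.Agent.W783.PC (pm DepOn Inc bern)

noncomputable section

variable {U : Finset (Finset Z)}

/-- If a finite set stays healthy by itself, the critical probability is one. -/
theorem case_fs (h : ¬ NoFS U) : pc U = 1 ∧ ET U (pc U) = 0 := by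
  have h1 : pc U = 1 := by
    unfold NoFS at h
    rw [not_not] at h
    obtain ⟨F, hF, hF2⟩ := h
    refine le_antisymm le_top (le_sInf fun p hp => ?_)
    by_contra hc
    exact not_perc hF hF2 (not_le.1 hc) hp
  refine ⟨h1, ?_⟩
  rw [h1]
  exact ET_one

/-- **Dichotomy.** -/
theorem dich (hno : NoFS U) (hne : ∀ X ∈ U, X.Nonempty) : ∃ (pt : unitInterval) (ε : ℝ), 0 < ε ∧
    pc U ≤ pt ∧ pt < 1 ∧ (∀ p, p ≤ pt → ∀ n : ℕ, 1 ≤ n → ε ≤ n * th U n p) ∧
    (∀ p, pt < p → ∃ C : ℝ, 0 < C ∧ ∀ m : ℕ,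
      th U m p ≤ C * Real.exp (-((m : ℝ) ^ (1 / 8 : ℝ) / C))) := by
  obtain ⟨ε, hε, hε1, hfsc⟩ := fsc2 hno
  obtain ⟨G, hG⟩ : ∃ G : Set unitInterval, G = {p | ∃ n : ℕ, 1 ≤ n ∧ n * th U n p < ε} := ⟨_, rfl⟩
  have memG : ∀ p, p ∈ G ↔ ∃ n : ℕ, 1 ≤ n ∧ n * th U n p < ε := fun p => by rw [hG]; rfl
  have hup : ∀ p p' : unitInterval, p ≤ p' → p ∈ G → p' ∈ G := by
    intro p p' h hp
    obtain ⟨n, hn, h1⟩ := (memG p).1 hp
    refine (memG p').2 ⟨n, hn, lt_of_le_of_lt ?_ h1⟩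
    exact mul_le_mul_of_nonneg_left (th_mono_p n h) (by positivity)
  -- `G` is open to the left
  have hopen : ∀ p ∈ G, ∃ p' ∈ G, p' < p := by
    intro p hp
    obtain ⟨n, hn, h1⟩ := (memG p).1 hp
    have hn0 : (1 : ℝ) ≤ n := by exact_mod_cast hn
    have hp0 : 0 < (p : ℝ) := by
      rcases eq_or_lt_of_le p.2.1 with h | h
      · exfalso
        have e : p = 0 := Subtype.ext h.symm
        rw [e, th_zero hne, mul_one] at h1
        linarith
      · exact h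
    obtain ⟨K, hK, hlip⟩ := th_lip (U := U) n
    obtain ⟨δ, hδ⟩ : ∃ δ : ℝ, δ = min ((p : ℝ) / 2) ((ε - n * th U n p) / (2 * n * K)) := ⟨_, rfl⟩
    have hgap : 0 < ε - n * th U n p := by linarith
    have hδ0 : 0 < δ := by
      rw [hδ]
      exact lt_min (by linarith) (by positivity)
    have hδ1 : δ ≤ (p : ℝ) / 2 := by rw [hδ]; exact min_le_left _ _
    have hδ2 : δ ≤ (ε - n * th U n p) / (2 * n * K) := by rw [hδ]; exact min_le_right _ _
    obtain ⟨p', hp'⟩ : ∃ p' : unitInterval, (p' : ℝ) = p - δ :=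
      ⟨⟨p - δ, by linarith, by linarith [p.2.2]⟩, rfl⟩
    refine ⟨p', (memG p').2 ⟨n, hn, ?_⟩, ?_⟩
    · have h2 := hlip p' p
      have e : |(p' : ℝ) - p| = δ := by
        rw [hp', show (p : ℝ) - δ - p = -δ by ring, abs_neg, abs_of_pos hδ0]
      rw [e] at h2
      have h3 : th U n p' ≤ th U n p + K * δ := by linarith [(abs_le.1 h2).2]
      have h4 : n * (K * δ) ≤ (ε - n * th U n p) / 2 := by
        rw [le_div_iff₀ (by positivity)] at hδ2
        linarith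
      have h5 : n * th U n p' ≤ n * (th U n p + K * δ) :=
        mul_le_mul_of_nonneg_left h3 (by linarith)
      rw [mul_add] at h5
      linarith
    · rw [← Subtype.coe_lt_coe, hp']
      linarith
  have h1G : (1 : unitInterval) ∈ G := by
    refine (memG 1).2 ⟨1, le_rfl, ?_⟩
    have h2 := th_le (U := U) 1 1
    simp at h2
    have h3 := th_nonneg (U := U) 1 1
    have h4 : th U 1 1 = 0 := le_antisymm h2 h3
    rw [h4]
    simpa using hε
  obtain ⟨pt, hpt⟩ : ∃ pt, pt = sInf G := ⟨_, rfl⟩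
  have hnot : pt ∉ G := by
    intro h
    obtain ⟨p', h1, h2⟩ := hopen pt h
    have : pt ≤ p' := by rw [hpt]; exact sInf_le h1
    exact absurd h2 (not_lt.2 this)
  refine ⟨pt, ε, hε, ?_, ?_, ?_, ?_⟩
  · rw [hpt]
    refine le_sInf fun p hp => sInf_le ?_
    obtain ⟨n, hn, h1⟩ := (memG p).1 hp
    obtain ⟨B, _, h2⟩ := hfsc p n hn h1
    exact perc_of_tail p h2
  · obtain ⟨p', h1, h2⟩ := hopen 1 h1G
    refine lt_of_le_of_lt ?_ h2
    rw [hpt]
    exact sInf_le h1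
  · intro p hp n hn
    by_contra hc
    exact hnot (hup p pt hp ((memG p).2 ⟨n, hn, not_le.1 hc⟩))
  · intro p hp
    rw [hpt, sInf_lt_iff] at hp
    obtain ⟨p', h1, h2⟩ := hp
    have hpG : p ∈ G := hup p' p h2.le h1
    obtain ⟨n, hn, h3⟩ := (memG p).1 hpG
    obtain ⟨B, hB, h4⟩ := hfsc p n hn h3
    exact tail_of p hB h4

lemma th_eq (n : ℕ) (p : unitInterval) : th U n p = (P p).real {ω | (n : ENNReal) < Tm U ω} := by
  unfold th
  congr 1
  ext ω
  exact (lt_Tm n ω).symm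

/-- **Dichotomy**, final form. -/
theorem main (hno : NoFS U) (hne : ∀ X ∈ U, X.Nonempty) :
    pc U < 1 ∧ ET U (pc U) = ⊤ ∧ ∃ (pt : unitInterval) (ε : ℝ), 0 < ε ∧ pc U ≤ pt ∧ pt < 1 ∧
    (∀ p, p ≤ pt → ∀ n : ℕ, 1 ≤ n → ε / n ≤ (P p).real {ω | (n : ENNReal) < Tm U ω}) ∧
    (∀ p, pt < p → ∃ C : ℝ, 0 < C ∧ ∀ n : ℕ, (P p).real {ω | (n : ENNReal) < Tm U ω} ≤
      C * Real.exp (-((n : ℝ) ^ (1 / 8 : ℝ) / C))) ∧
    ∀ p, ET U p < ⊤ ↔ pt < p := by
  obtain ⟨pt, ε, hε, h1, h2, h3, h4⟩ := dich hno hne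
  have htop : ∀ p, p ≤ pt → ET U p = ⊤ := fun p hp => ET_top hε (h3 p hp)
  refine ⟨lt_of_le_of_lt h1 h2, htop _ h1, pt, ε, hε, h1, h2, ?_, ?_, ?_⟩
  · intro p hp n hn
    have hn0 : (0 : ℝ) < n := by exact_mod_cast hn
    rw [div_le_iff₀ hn0, ← th_eq, mul_comm]
    exact h3 p hp n hn
  · intro p hp
    obtain ⟨C, hC, h5⟩ := h4 p hp
    refine ⟨C, hC, fun n => ?_⟩
    rw [← th_eq]
    exact h5 n
  · intro p
    constructor
    · intro h
      by_contra hc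
      rw [htop p (not_lt.1 hc)] at h
      exact absurd h (lt_irrefl _)
    · intro hp
      obtain ⟨C, hC, h5⟩ := h4 p hp
      exact ET_lt p (summable_of_tail p hC h5)

end

end Pool.Agent.Run7.h240.UB
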